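import Pool.Agent.helper91.RB.Spec4

/-!
# Row rb:LDT: the determinant of a map carrying a finite index sublattice into the lattice
-/

set_option autoImplicit false

namespace Pool.Agent.RB

open Module
open scoped Classical

theorem LDT_cast {ι : Type} [Fintype ι] [DecidableEq ι] {V : Type} [AddCommGroup V] [Module ℂ V]
    (b : Basis ι ℂ V) (v : ι → Submodule.span ℤ (Set.range b)) :
    b.det (fun i => (v i : V)) = (((b.restrictScalars ℤ).det v : ℤ) : ℂ) := by
  rw [Basis.det_apply, Basis.det_apply]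
  have h : (((((b.restrictScalars ℤ).toMatrix v).det : ℤ)) : ℂ) =
      ((Int.castRingHom ℂ).mapMatrix ((b.restrictScalars ℤ).toMatrix v)).det :=
    RingHom.map_det (Int.castRingHom ℂ) ((b.restrictScalars ℤ).toMatrix v)
  rw [h]
  congr 1
  ext i j
  rw [RingHom.mapMatrix_apply, Matrix.map_apply, Basis.toMatrix_apply, Basis.toMatrix_apply]
  have h2 := b.restrictScalars_repr_apply ℤ (v j) i
  rw [← h2]
  rfl

theorem LDT : LDT_stmt := by
  intro ι _ _ V _ _ b M Φ hM hidx hΦ
  have hcl : AddSubgroup.closure (Set.range b) = (Submodule.span ℤ (Set.range b)).toAddSubgroup :=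
    (Submodule.span_int_eq_addSubgroupClosure (Set.range b)).symm
  rw [hcl] at hM hidx hΦ ⊢
  set L := Submodule.span ℤ (Set.range b) with hL
  let B : Basis ι ℤ L := b.restrictScalars ℤ
  have : Module.Free ℤ L := Module.Free.of_basis B
  have : Module.Finite ℤ L := Module.Finite.of_basis B
  let N : Submodule ℤ L := M.toIntSubmodule.comap L.subtype
  have hN : N.toAddSubgroup.index = M.relIndex L.toAddSubgroup := rfl
  have hfin : N.toAddSubgroup.FiniteIndex := ⟨by rw [hN]; exact hidx⟩
  have hfr : Module.finrank ℤ N = Module.finrank ℤ L :=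
    AddSubgroup.finrank_eq_of_finiteIndex N.toAddSubgroup
  have : Module.Free ℤ N := inferInstance
  have hcard : Module.finrank ℤ N = Fintype.card ι := by
    rw [hfr, Module.finrank_eq_card_basis B]
  let a0 := Module.finBasisOfFinrankEq ℤ N hcard
  let a : Basis ι ℤ N := a0.reindex (Fintype.equivFin ι).symm
  have hdet : ((B.det ((↑) ∘ a)).natAbs : ℕ) = M.relIndex L.toAddSubgroup := by
    rw [Submodule.natAbs_det_basis_change B N a, ← hN]
    rfl
  have hmem : ∀ i, Φ ((a i : L) : V) ∈ L := fun i => hΦ _ (a i).2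
  have h1 : b.det (fun i => Φ ((a i : L) : V)) = LinearMap.det Φ * b.det (fun i => ((a i : L) : V)) :=
    b.det_comp Φ (fun i => ((a i : L) : V))
  have h2 := LDT_cast b (fun i => (⟨Φ ((a i : L) : V), hmem i⟩ : L))
  have h3 := LDT_cast b (fun i => (a i : L))
  have h4 : LinearMap.det Φ * ((B.det ((↑) ∘ a) : ℤ) : ℂ) =
      ((B.det (fun i => (⟨Φ ((a i : L) : V), hmem i⟩ : L)) : ℤ) : ℂ) := by
    rw [← h2, h1, h3]
    rfl
  rw [← hdet]
  rcases Int.natAbs_eq (B.det ((↑) ∘ a)) with h | h
  · refine ⟨B.det (fun i => (⟨Φ ((a i : L) : V), hmem i⟩ : L)), ?_⟩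
    rw [← h4, mul_comm]
    congr 1
    conv_rhs => rw [h]
    rw [Int.cast_natCast]
  · refine ⟨-B.det (fun i => (⟨Φ ((a i : L) : V), hmem i⟩ : L)), ?_⟩
    rw [Int.cast_neg, ← h4, mul_comm, ← mul_neg]
    congr 1
    conv_rhs => rw [h]
    rw [Int.cast_neg, Int.cast_natCast, neg_neg]

end Pool.Agent.RB
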