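import Pool.Agent.helper91.RB.Spec1

/-!
# MP_24e2e7_nt: row rb:THI (theta inversion for ideals)
-/

set_option autoImplicit false

namespace Pool.Agent.RB

open NumberField NumberField.InfinitePlace NumberField.Units NumberField.Units.dirichletUnitTheorem
open MeasureTheory Filter Topology Module
open scoped nonZeroDivisors Real Classical

lemma THI_summable {K : Type} {F : K → ℝ} {S T : Set K} (h : S = T)
    (hS : Summable (fun x : S => F x)) : Summable (fun x : T => F x) := by
  subst h
  exact hS

/-- the discriminant of a `ℚ`-basis and the determinant of the change of basis -/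
lemma THI_discr {K : Type} [Field K] [NumberField K] {ι : Type} [Fintype ι] [DecidableEq ι]
    (c b : Basis ι ℚ K) : Algebra.discr ℚ b = (c.det b) ^ 2 * Algebra.discr ℚ c := by
  have h := Algebra.discr_of_matrix_vecMul (A := ℚ) (c : ι → K) (c.toMatrix b)
  rw [Basis.toMatrix_map_vecMul] at h
  rw [h, Basis.det_apply]

theorem THI (hTHB : THB_stmt) : THI_stmt := by
  intro K _ _ J hJ t ht
  set Ju : (FI K)ˣ := Units.mk0 J hJ with hJu
  have hJ1 : (Ju : FI K) = J := rfl
  -- the indices
  let e0 : (Free.ChooseBasisIndex ℤ (𝓞 K)) ≃ (Free.ChooseBasisIndex ℤ Ju) :=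
    (Fintype.equivOfCardEq (by
      rw [← finrank_eq_card_basis (integralBasis K),
        ← finrank_eq_card_basis (basisOfFractionalIdeal K Ju)]))
  let e1 : Free.ChooseBasisIndex ℤ (𝓞 K) ≃ Fin (finrank ℚ K) :=
    Fintype.equivFinOfCardEq (finrank_eq_card_basis (integralBasis K)).symm
  let b : Basis (Fin (finrank ℚ K)) ℚ K := (basisOfFractionalIdeal K Ju).reindex (e0.symm.trans e1)
  have hspan : (Submodule.span ℤ (Set.range b) : Submodule ℤ K) =
      (J : Submodule (𝓞 K) K).restrictScalars ℤ := by
    ext x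
    have h1 : Set.range b = Set.range (basisOfFractionalIdeal K Ju) := Basis.range_reindex _ _
    rw [h1, mem_span_basisOfFractionalIdeal]
    rfl
  have hset : ((Submodule.span ℤ (Set.range b) : Submodule ℤ K) : Set K) =
      ((J : Submodule (𝓞 K) K) : Set K) := by
    rw [hspan]
    rfl
  have hdu : ((Submodule.span ℤ (Set.range
        ((Algebra.traceForm ℚ K).dualBasis (traceForm_nondegenerate ℚ K) b)) : Submodule ℤ K) : Set K)
      = ((du K J : Submodule (𝓞 K) K) : Set K) := by
    have h1 := Submodule.traceDual_span_of_basis ℤ (J : Submodule (𝓞 K) K) b hspan.symm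
    have h2 : (du K J : Submodule (𝓞 K) K) = Submodule.traceDual ℤ ℚ (J : Submodule (𝓞 K) K) :=
      FractionalIdeal.coe_dual ℤ ℚ hJ
    rw [h2]
    exact (congrArg (fun M : Submodule ℤ K => (M : Set K)) h1).symm
  -- the discriminant
  have hdisc : |((Algebra.discr ℚ b : ℚ) : ℝ)| =
      |(discr K : ℝ)| * (FractionalIdeal.absNorm J : ℝ) ^ 2 := by
    have h1 : b = ((basisOfFractionalIdeal K Ju).reindex e0.symm).reindex e1 := by
      apply Basis.eq_of_apply_eq
      intro i
      simp [b]
    have h2 : Algebra.discr ℚ b = Algebra.discr ℚ ((basisOfFractionalIdeal K Ju).reindex e0.symm) := by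
      rw [h1, Basis.coe_reindex _ e1, Algebra.discr_reindex]
    have h3 := THI_discr (integralBasis K) ((basisOfFractionalIdeal K Ju).reindex e0.symm)
    have h4 : |(integralBasis K).det ((basisOfFractionalIdeal K Ju).reindex e0.symm)| =
        FractionalIdeal.absNorm J := det_basisOfFractionalIdeal_eq_absNorm K Ju e0
    rw [h2, h3, ← coe_discr, ← sq_abs ((integralBasis K).det _), h4]
    push_cast
    rw [abs_mul, abs_of_nonneg (sq_nonneg _), mul_comm]
  have hN : (0 : ℝ) ≤ (FractionalIdeal.absNorm J : ℝ) := by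
    exact_mod_cast FractionalIdeal.absNorm_nonneg J
  have hsq : Real.sqrt |((Algebra.discr ℚ b : ℚ) : ℝ)| =
      Real.sqrt |(discr K : ℝ)| * (FractionalIdeal.absNorm J : ℝ) := by
    rw [hdisc, Real.sqrt_mul (abs_nonneg _), Real.sqrt_sq hN]
  obtain ⟨hs, hth⟩ := hTHB K b t ht
  refine ⟨THI_summable (F := fun x : K => Real.exp (-π * qf K t x)) hset hs, ?_⟩
  rw [hset, hdu, hsq] at hth
  exact hth

end Pool.Agent.RB
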